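import Pool.Agent.H84.CfB

namespace Pool.Agent.Results.MP_254ca6_gt.Proper

open Pool.Agent.H84.CfDefs

theorem result : (∀ u v, CF u v → C u v) ∧ ∃ u v, RF u v ∧ C u v ∧ ¬ CF u v :=
  ⟨fun _ _ h => (Pool.Agent.H84.Cf.mem_X h).comfort, Pool.Agent.H84.Cf.ex⟩

end Pool.Agent.Results.MP_254ca6_gt.Proper
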