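import Pool.Agent.H84.CfB

namespace Pool.Agent.Results.MP_254ca6_gt.Tree

open Pool.Agent.H84.CfDefs

theorem result : TreeLike CF ↔ ¬ ∃ v, Selective v :=
  Pool.Agent.H84.Cf.tree

end Pool.Agent.Results.MP_254ca6_gt.Tree
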